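import Pool.Agent.Q84.DSep.Comb

set_option autoImplicit false

/-!
# Large d-separating sets and toric Gaussian ideals

If two nonadjacent vertices of a directed acyclic graph cannot be d-separated by at most one
vertex, then the vanishing ideal of the Gaussian model of the graph is not toric.

Idea of the proof. Let `j` not be an ancestor of `i` and let `C` be the set of the parents of `j`.
The determinant of the submatrix of the covariance matrix with rows `i, C` and columns `j, C` lies
in the ideal. If the ideal is toric and `sigma_ij` is not in it, then the term
`sigma_ij prod sigma_cc` must cancel against another term, and a comparison of the lowest degrees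
in the edge parameters shows that this term is `sigma_ic sigma_cj` times the other `sigma_c'c'`,
for some `c` in `C`. So `sigma_ij sigma_cc - sigma_ic sigma_cj` is in the ideal: `i` and `j` are
independent given `c` for all distributions of the model. From this it is shown that `c`
d-separates `i` and `j`.
-/

namespace Pool.Agent.Results.MP_3a69bf_ag.LargeSeparators

open Pool.Agent.Q84.DSep

/-- **Large d-separating sets and toric Gaussian ideals.** Let `E` be the edge relation of a
directed acyclic graph on the vertices `0, …, n - 1` and let `i`, `j` be two different nonadjacent
vertices such that every set of vertices (not containing `i`, `j`) which d-separates them has at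
least two elements. Then the vanishing ideal of the Gaussian model is not toric: it is neither a
prime ideal generated by binomials nor the kernel of a homomorphism which sends each variable to
a scalar multiple of a monomial. -/
theorem result (n : ℕ) (E : Fin n → Fin n → Prop) (hE : ∀ i, ¬ Relation.TransGen E i i)
    (i j : Fin n) (hij : i ≠ j) (hn : ¬ E i j) (hn' : ¬ E j i)
    (h : ∀ C : Finset (Fin n), i ∉ C → j ∉ C → DSep E C i j → 2 ≤ C.card) :
    ¬ IsToric (gaussianIdeal E) ∧ ¬ IsToricKer (gaussianIdeal E) := by
  have key : ¬ Pool.Agent.Q84.Trek.BP (gaussianIdeal E) := by
    intro hBP
    obtain ⟨C, h1, h2, h3, h4⟩ := exists_dsep hE hBP hij hn hn'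
    have := h C h1 h2 h4
    omega
  refine ⟨?_, ?_⟩
  · rintro ⟨-, S, h1, h2⟩
    apply key
    rw [h2]
    exact Pool.Agent.Q84.Trek.bp_span S h1
  · rintro ⟨M, _, θ, h1, h2⟩
    apply key
    rw [h2]
    exact Pool.Agent.Q84.Trek.bp_ker θ h1

end Pool.Agent.Results.MP_3a69bf_ag.LargeSeparators
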